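import Pool.Agent.H.MP_dd51f8_al.Proof

/-!
# MP_dd51f8_al : exponential growth rates of B. H. Neumann's groups

All the growth rates of the Neumann groups coincide: there is one real number `lam`, the growth
rate of the group `B_∞ = ⟨t, (-1 0 1)⟩` of permutations of `ℤ`, such that the growth rate of
`G_U` with respect to `{α, β}` equals `lam` for every admissible sequence `U`; moreover
`2 ≤ lam ≤ 1 + √2`.
-/

open Pool.Agent.H.MP_dd51f8_al

namespace Pool.Agent.Results.MP_dd51f8_al.CommonRate

/-- **All growth rates of B. H. Neumann's groups coincide.** There is a real number `lam` with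
`2 ≤ lam ≤ 1 + √2` which is the exponential growth rate of `B_∞ = ⟨t, (-1 0 1)⟩ ≤ Sym(ℤ)` and of
`G_U = ⟨α, β⟩ ≤ Sym(X_U)`, with respect to these generators, for every admissible `U`. -/
theorem result : ∃ lam : ℝ, HasRate ({shiftZ, cycZ} : Set (Equiv.Perm ℤ)) lam ∧
    (∀ U : OddSeq, HasRate ({alpha U, beta U} : Set (Equiv.Perm (X U))) lam) ∧
    2 ≤ lam ∧ lam ≤ 1 + √2 := by
  refine ⟨Real.exp (L shiftZ cycZ), hasRate shiftZ cycZ, fun U => ?_, ?_, ?_⟩
  · rw [← L_eq U]
    exact hasRate (alpha U) (beta U)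
  · have := log_two_le_L shiftZ cycZ lower
    calc (2 : ℝ) = Real.exp (Real.log 2) := (Real.exp_log two_pos).symm
      _ ≤ _ := Real.exp_le_exp.2 this
  · have hρ : 0 < 1 + √2 := by positivity
    have := L_le_log shiftZ cycZ (by norm_num : (0 : ℝ) < 10) hρ upper
    calc Real.exp (L shiftZ cycZ) ≤ Real.exp (Real.log (1 + √2)) := Real.exp_le_exp.2 this
      _ = _ := Real.exp_log hρ

end Pool.Agent.Results.MP_dd51f8_al.CommonRate
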