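import Mathlib
import Pool.Agent.H.MP_dd51f8_al.Defs
import Pool.Agent.H.MP_dd51f8_al.ER.Fin

/-!
# MP_dd51f8_al : effective bounds for the growth rates of B. H. Neumann's groups
-/

set_option autoImplicit false

open Pool.Agent.H.MP_dd51f8_al

namespace Pool.Agent.Results.MP_dd51f8_al.EffectiveRate

/-- **Effective bounds for the growth rates of B. H. Neumann's groups.** Let `lam` be the growth rate of
`G_U = ⟨α, β⟩` for some admissible `U`. For all `k` the number of elements of length at most `k` of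
the group `B_∞ = ⟨t, (-1 0 1)⟩` lies between `lam ^ k` and
`(29 (k + 1) ^ 2) ^ (2 ⌊√(2 k)⌋ + 1) * lam ^ k`. -/
theorem result (U : OddSeq) (lam : ℝ)
    (h : HasRate ({alpha U, beta U} : Set (Equiv.Perm (X U))) lam) (k : ℕ) :
    lam ^ k ≤ ballCard ({shiftZ, cycZ} : Set (Equiv.Perm ℤ)) k ∧
      (ballCard ({shiftZ, cycZ} : Set (Equiv.Perm ℤ)) k : ℝ) ≤
        (29 * ((k : ℝ) + 1) ^ 2) ^ (2 * Nat.sqrt (2 * k) + 1) * lam ^ k :=
  ER.main U lam h k

end Pool.Agent.Results.MP_dd51f8_al.EffectiveRate
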