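import Mathlib
import Pool.Agent.H.MP_dd51f8_al.Defs
import Pool.Agent.H.MP_dd51f8_al.ER.Up
import Pool.Agent.H.MP_dd51f8_al.ER.Lw

/-!
# MP_dd51f8_al : numerical bounds for the growth rates of B. H. Neumann's groups
-/

set_option autoImplicit false

open Pool.Agent.H.MP_dd51f8_al

namespace Pool.Agent.Results.MP_dd51f8_al.NumericRate

/-- **Numerical bounds for the growth rates of B. H. Neumann's groups.** For every admissible `U` the
growth rate `lam` of `G_U = ⟨α, β⟩` satisfies `2.055 ≤ lam ≤ 2.2`. -/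
theorem result (U : OddSeq) (lam : ℝ)
    (h : HasRate ({alpha U, beta U} : Set (Equiv.Perm (X U))) lam) :
    411 / 200 ≤ lam ∧ lam ≤ 11 / 5 := by
  have h1 := hasRate (alpha U) (beta U)
  rw [L_eq U] at h1
  have h2 : lam = Real.exp (L shiftZ cycZ) := tendsto_nhds_unique h h1
  rw [h2]
  refine ⟨?_, ER.lam_upper⟩
  calc (411 / 200 : ℝ) = Real.exp (Real.log (411 / 200)) := (Real.exp_log (by norm_num)).symm
    _ ≤ _ := Real.exp_le_exp.2 ER.lowerW

end Pool.Agent.Results.MP_dd51f8_al.NumericRate
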